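import Pool.Agent.Helper74.MU.Defs

/-!
# Weighted walks: definitions
-/

set_option autoImplicit false

namespace Pool.Agent.Helper74.MW

open Pool.Agent.Helper74.MU

/-- positive weights of total mass one, invariant under the involution -/
def IsWt {Ω : Type} [Fintype Ω] (p : Ω → ℝ) (σ : Ω ≃ Ω) : Prop := (∀ ω, 0 < p ω) ∧ ∑ ω, p ω = 1 ∧ ∀ ω, p (σ ω) = p ω

/-- expected word length of the walk with weights `p` -/
noncomputable def wel {G : Type} [Group G] {Ω : Type} [Fintype Ω] (s : Ω → G) (p : Ω → ℝ) (n : ℕ) : ℝ :=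
  ∑ w : Fin n → Ω, (∏ i, p (w i)) * (wl (Set.range s) (val s w) : ℝ)

open Classical in
/-- probability of `|X_n| > D` -/
noncomputable def wbig {G : Type} [Group G] {Ω : Type} [Fintype Ω] (s : Ω → G) (p : Ω → ℝ) (n : ℕ) (D : ℝ) : ℝ :=
  ∑ w : Fin n → Ω, if D < (wl (Set.range s) (val s w) : ℝ) then ∏ i, p (w i) else 0

lemma sum_prod_wt {Ω : Type} [Fintype Ω] (p : Ω → ℝ) (n : ℕ) : ∑ w : Fin n → Ω, ∏ i, p (w i) = (∑ ω, p ω) ^ n := by
  classical
  rw [Finset.sum_pow' (Finset.univ) p n]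
  simp

end Pool.Agent.Helper74.MW
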