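import Pool.Agent.Helper74.MW.U
import Pool.Agent.Helper74.MW.P4
import Pool.Agent.Helper13.MW.Defs

/-!
# MW: the upper and the lower bound in the notation of project MW
-/

set_option autoImplicit false

namespace Pool.Agent.Helper74.MW

open Pool.Agent.Helper74.MU Pool.Agent.Helper13.MW

theorem wel_eq {G Ω : Type} [Group G] [Fintype Ω] (s : Ω → G) (p : Ω → ℝ) (n : ℕ) : wel s p n = elw s p n := rfl

theorem isWt_of_Wt {Ω : Type} [Fintype Ω] {p : Ω → ℝ} {σ : Ω ≃ Ω} (hp : Wt p σ) : IsWt p σ := ⟨hp.pos, hp.sum, hp.symm⟩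

/-- The upper bound `E|X_n| ≤ C n^(1/2+ε)` for metabelian groups satisfying `RelA`, `RelB`, arbitrary symmetric weights. -/
theorem elw_upper {G Ω : Type} [Group G] [Fintype Ω] [Nonempty Ω] (s : Ω → G) (σ : Ω ≃ Ω) (hσ : ∀ ω, s (σ ω) = (s ω)⁻¹)
    (hgen : Subgroup.closure (Set.range s) = ⊤) (p : Ω → ℝ) (hp : Wt p σ)
    (hab : ∀ a ∈ commutator G, ∀ b ∈ commutator G, a * b = b * a)
    (hA : RelA (commutator G)) (hB : RelB (commutator G)) (ε : ℝ) (hε : 0 < ε) :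
    ∃ C : ℝ, 0 < C ∧ ∀ n : ℕ, 1 ≤ n → elw s p n ≤ C * (n : ℝ) ^ (1 / 2 + ε) :=
  wupper s p σ hσ (isWt_of_Wt hp) hgen hab hA hB ε hε

/-- The lower bound `c √n ≤ E|X_n|` for groups with a nontrivial homomorphism to `ℤ`, arbitrary symmetric weights. -/
theorem elw_lower {G Ω : Type} [Group G] [Fintype Ω] [Nonempty Ω] (s : Ω → G) (σ : Ω ≃ Ω) (hσ : ∀ ω, s (σ ω) = (s ω)⁻¹)
    (hgen : Subgroup.closure (Set.range s) = ⊤) (p : Ω → ℝ) (hp : Wt p σ)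
    (f : G →* Multiplicative ℤ) (hf : ∃ g, f g ≠ 1) :
    ∃ c : ℝ, 0 < c ∧ ∀ n : ℕ, 1 ≤ n → c * Real.sqrt n ≤ elw s p n :=
  wlower s p σ hσ (isWt_of_Wt hp) hgen f hf

end Pool.Agent.Helper74.MW
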