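import Pool.Agent.Helper74.MU.P1
import Pool.Agent.Helper74.MW.Defs

set_option autoImplicit false

namespace Pool.Agent.Helper74.MW

open Pool.Agent.Helper74.MU

open Finsupp

private noncomputable def T92 {G : Type} [Group G] (x : G) : (G →₀ ℝ) →ₗ[ℝ] (G →₀ ℝ) :=
  Finsupp.lmapDomain ℝ ℝ (fun g => g * x)

private theorem T92_apply {G : Type} [Group G] (x : G) (u : G →₀ ℝ) (g : G) : T92 x u g = u (g * x⁻¹) := by
  have h1 := Finsupp.mapDomain_apply (f := fun g : G => g * x) (mul_left_injective x) u (g * x⁻¹)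
  rw [inv_mul_cancel_right] at h1
  exact h1

private theorem T92_mul {G : Type} [Group G] (x y : G) (u : G →₀ ℝ) : T92 (x * y) u = T92 y (T92 x u) := by
  ext g
  rw [T92_apply, T92_apply, T92_apply, mul_inv_rev, mul_assoc]

private noncomputable def b92 (G : Type) : (G →₀ ℝ) →ₗ[ℝ] (G →₀ ℝ) →ₗ[ℝ] ℝ :=
  LinearMap.mk₂ ℝ (fun u v => u.sum fun g a => a * v g)
    (fun u u' v => Finsupp.sum_add_index' (fun _ => zero_mul _) (fun _ _ _ => add_mul _ _ _))
    (fun c u v => by
      rw [Finsupp.sum_smul_index' (fun _ => zero_mul _), Finsupp.smul_sum]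
      refine Finsupp.sum_congr fun g _ => ?_
      rw [smul_mul_assoc])
    (fun u v v' => by
      rw [← Finsupp.sum_add]
      refine Finsupp.sum_congr fun g _ => ?_
      rw [Finsupp.add_apply, mul_add])
    (fun c u v => by
      rw [Finsupp.smul_sum]
      refine Finsupp.sum_congr fun g _ => ?_
      rw [Finsupp.smul_apply, smul_eq_mul, smul_eq_mul, mul_left_comm])

private theorem b92_eq {G : Type} (u v : G →₀ ℝ) (S : Finset G) (hS : u.support ⊆ S) :
    b92 G u v = ∑ g ∈ S, u g * v g :=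
  Finsupp.sum_of_support_subset u hS (fun g a => a * v g) fun _ _ => zero_mul _

private theorem b92_sub {G : Type} (u v : G →₀ ℝ) :
    b92 G (u - v) (u - v) = b92 G u u - b92 G u v - (b92 G v u - b92 G v v) := by
  simp only [map_sub, LinearMap.sub_apply]
  ring

private theorem b92_add {G : Type} (u v : G →₀ ℝ) :
    b92 G (u + v) (u + v) = b92 G u u + b92 G u v + (b92 G v u + b92 G v v) := by
  simp only [map_add, LinearMap.add_apply]
  ring

private theorem b92_symm {G : Type} (u v : G →₀ ℝ) : b92 G u v = b92 G v u := by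
  classical
  rw [b92_eq u v (u.support ∪ v.support) Finset.subset_union_left,
    b92_eq v u (u.support ∪ v.support) Finset.subset_union_right]
  exact Finset.sum_congr rfl fun g _ => mul_comm _ _

private theorem b92_nonneg {G : Type} (u : G →₀ ℝ) : 0 ≤ b92 G u u := by
  rw [b92_eq u u u.support (Finset.Subset.refl _)]
  exact Finset.sum_nonneg fun g _ => mul_self_nonneg _

private theorem b92_T {G : Type} [Group G] (x : G) (u v : G →₀ ℝ) :
    b92 G (T92 x u) v = b92 G u (T92 x⁻¹ v) := by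
  classical
  rw [b92_eq (T92 x u) v (u.support.image fun g => g * x) Finsupp.mapDomain_support,
    b92_eq u _ u.support (Finset.Subset.refl _),
    Finset.sum_image fun a _ c _ hac => mul_left_injective x hac]
  refine Finset.sum_congr rfl fun g _ => ?_
  rw [T92_apply, T92_apply, mul_inv_cancel_right, inv_inv]

private theorem T92_one {G : Type} [Group G] (u : G →₀ ℝ) : T92 1 u = u := by
  ext g
  rw [T92_apply, inv_one, mul_one]

private theorem b92_TT {G : Type} [Group G] (x : G) (u : G →₀ ℝ) :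
    b92 G (T92 x u) (T92 x u) = b92 G u u := by
  rw [b92_T, ← T92_mul, mul_inv_cancel, T92_one]

private theorem b92_le {G : Type} [Group G] (x : G) (u : G →₀ ℝ) :
    |b92 G (T92 x u) u| ≤ b92 G u u := by
  have h1 := b92_nonneg (T92 x u - u)
  have h2 := b92_nonneg (T92 x u + u)
  rw [b92_sub, b92_TT, b92_symm u (T92 x u)] at h1
  rw [b92_add, b92_TT, b92_symm u (T92 x u)] at h2
  rw [abs_le]
  constructor <;> linarith

private noncomputable def P92 {G Ω : Type} [Group G] [Fintype Ω] (s : Ω → G) (p : Ω → ℝ) : (G →₀ ℝ) →ₗ[ℝ] (G →₀ ℝ) :=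
  ∑ ω, p ω • T92 (s ω)

private theorem P92_apply {G Ω : Type} [Group G] [Fintype Ω] (s : Ω → G) (p : Ω → ℝ) (u : G →₀ ℝ) :
    P92 s p u = ∑ ω, p ω • T92 (s ω) u := by
  rw [P92, LinearMap.sum_apply]
  rfl

private theorem b92_P {G Ω : Type} [Group G] [Fintype Ω] (s : Ω → G) (p : Ω → ℝ) (u v : G →₀ ℝ) :
    b92 G (P92 s p u) v = ∑ ω, p ω * b92 G (T92 (s ω) u) v := by
  rw [P92_apply, map_sum, LinearMap.sum_apply]
  refine Finset.sum_congr rfl fun ω _ => ?_
  rw [map_smul, LinearMap.smul_apply, smul_eq_mul]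

private theorem b92_P' {G Ω : Type} [Group G] [Fintype Ω] (s : Ω → G) (p : Ω → ℝ) (u v : G →₀ ℝ) :
    b92 G u (P92 s p v) = ∑ ω, p ω * b92 G u (T92 (s ω) v) := by
  rw [P92_apply, map_sum]
  refine Finset.sum_congr rfl fun ω _ => ?_
  rw [map_smul, smul_eq_mul]

private theorem b92_Psymm {G Ω : Type} [Group G] [Fintype Ω] (s : Ω → G) (p : Ω → ℝ) (σ : Ω ≃ Ω)
    (hσ : ∀ ω, s (σ ω) = (s ω)⁻¹) (hp : IsWt p σ) (u v : G →₀ ℝ) :
    b92 G (P92 s p u) v = b92 G u (P92 s p v) := by
  rw [b92_P, b92_P']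
  rw [← Equiv.sum_comp σ fun ω => p ω * b92 G u (T92 (s ω) v)]
  refine Finset.sum_congr rfl fun ω _ => ?_
  rw [b92_T, hσ, hp.2.2]

private theorem b92_Pc {G Ω : Type} [Group G] [Fintype Ω] [Nonempty Ω] (s : Ω → G) (p : Ω → ℝ) (σ : Ω ≃ Ω) (hp : IsWt p σ) (u : G →₀ ℝ) :
    |b92 G (P92 s p u) u| ≤ b92 G u u := by
  rw [b92_P]
  calc |∑ ω, p ω * b92 G (T92 (s ω) u) u| ≤ ∑ ω, p ω * b92 G u u := by
        refine (Finset.abs_sum_le_sum_abs _ _).trans (Finset.sum_le_sum fun ω _ => ?_)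
        rw [abs_mul, abs_of_pos (hp.1 ω)]
        exact mul_le_mul_of_nonneg_left (b92_le _ _) (hp.1 ω).le
    _ = b92 G u u := by rw [← Finset.sum_mul, hp.2.1, one_mul]

private theorem P92_pow {G Ω : Type} [Group G] [Fintype Ω] (s : Ω → G) (p : Ω → ℝ) (n : ℕ) (u : G →₀ ℝ) :
    (P92 s p ^ n) u = ∑ w : Fin n → Ω, (∏ i, p (w i)) • T92 (val s w) u := by
  induction n generalizing u with
  | zero =>
    rw [pow_zero, Fintype.sum_unique]
    have h1 : val s (default : Fin 0 → Ω) = 1 := by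
      rw [val, List.ofFn_zero, List.prod_nil]
    rw [h1, T92_one]
    simp
  | succ n ih =>
    have h1 : (P92 s p ^ (n + 1)) u = (P92 s p ^ n) (P92 s p u) := by
      rw [pow_succ]
      rfl
    rw [h1, P92_apply, map_sum]
    have h2 : ∑ w : Fin (n + 1) → Ω, (∏ i, p (w i)) • T92 (val s w) u =
        ∑ ω, ∑ w : Fin n → Ω, (p ω * ∏ i, p (w i)) • T92 (val s w) (T92 (s ω) u) := by
      rw [← Equiv.sum_comp (Fin.consEquiv fun _ => Ω) fun w => (∏ i, p (w i)) • T92 (val s w) u, Fintype.sum_prod_type]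
      refine Finset.sum_congr rfl fun ω _ => Finset.sum_congr rfl fun w _ => ?_
      have h3 : val s (Fin.consEquiv (fun _ => Ω) (ω, w)) = s ω * val s w := by
        rw [val, List.ofFn_succ, List.prod_cons]
        rfl
      rw [h3, T92_mul, Fin.prod_univ_succ]
      rfl
    rw [h2]
    refine Finset.sum_congr rfl fun ω _ => ?_
    rw [map_smul, ih, Finset.smul_sum]
    refine Finset.sum_congr rfl fun w _ => ?_
    rw [smul_smul]

open Classical in
private noncomputable def cnt92 {G Ω : Type} [Group G] (s : Ω → G) (F : Finset G) (R : ℕ) (g : G) : ℕ :=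
  ((Finset.range R).filter fun j => ∃ f ∈ F, ∃ l : List Ω, l.length ≤ j ∧ g = f * (l.map s).prod).card

private theorem cnt92_step {G Ω : Type} [Group G] (s : Ω → G) (F : Finset G) (R : ℕ) (g : G) (ω : Ω) :
    cnt92 s F R g ≤ cnt92 s F R (g * s ω) + 1 := by
  classical
  unfold cnt92
  refine (Finset.card_le_card (t := (((Finset.range R).filter fun j => ∃ f ∈ F, ∃ l : List Ω,
    l.length ≤ j ∧ g * s ω = f * (l.map s).prod).image Nat.pred) ∪ {R - 1}) ?_).trans
      ((Finset.card_union_le _ _).trans ?_)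
  · intro j hj
    rw [Finset.mem_filter, Finset.mem_range] at hj
    obtain ⟨hj1, f, hf, l, hl, hg⟩ := hj
    rw [Finset.mem_union]
    by_cases h1 : j + 1 < R
    · left
      rw [Finset.mem_image]
      refine ⟨j + 1, ?_, rfl⟩
      rw [Finset.mem_filter, Finset.mem_range]
      refine ⟨h1, f, hf, l ++ [ω], ?_, ?_⟩
      · rw [List.length_append, List.length_singleton]
        omega
      · rw [List.map_append, List.prod_append, List.map_singleton, List.prod_singleton, hg, mul_assoc]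
    · right
      rw [Finset.mem_singleton]
      omega
  · rw [Finset.card_singleton]
    exact Nat.add_le_add_right Finset.card_image_le 1

private theorem cnt92_F {G Ω : Type} [Group G] (s : Ω → G) (F : Finset G) (R : ℕ) {g : G} (hg : g ∈ F) :
    cnt92 s F R g = R := by
  classical
  unfold cnt92
  rw [Finset.filter_true_of_mem, Finset.card_range]
  intro j _
  exact ⟨g, hg, [], Nat.zero_le _, by simp⟩

private theorem cnt92_mem {G Ω : Type} [Group G] (s : Ω → G) (F F' : Finset G) (R : ℕ)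
    (hF : ∀ g ∈ F, ∀ l : List Ω, l.length < R → g * (l.map s).prod ∈ F') {g : G}
    (hg : (cnt92 s F R g : ℝ) ≠ 0) : g ∈ F' := by
  classical
  have h1 : cnt92 s F R g ≠ 0 := by exact_mod_cast hg
  unfold cnt92 at h1
  rw [← Nat.pos_iff_ne_zero, Finset.card_pos] at h1
  obtain ⟨j, hj⟩ := h1
  rw [Finset.mem_filter, Finset.mem_range] at hj
  obtain ⟨hj1, f, hf, l, hl, rfl⟩ := hj
  exact hF f hf l (lt_of_le_of_lt hl hj1)

/-- Foelner pairs bound the tail, weighted version. `F·(words of length < R) ⊆ F'`, and `g⁻¹ h` has word length `≤ D` for `g, h ∈ F'`; then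
`P(|X_n| > D) ≤ n |F'| / (R² |F|)`.
Proof: `F_0 = F`, `F_{j+1} = F_j ∪ ⋃ F_j s(ω)`, `F_j ⊆ F'` for `j < R`; `v = (1/R) ∑_{j<R} 1_{F_j}` (in `G →₀ ℝ`), so `v = 1` on `F`, `|v(g) - v(g s ω)| ≤ 1/R`.
With `(P v)(g) = (1/|Ω|) ∑_ω v(g s ω)`: `⟨v,v⟩ - ⟨Pv,v⟩ = (1/(2|Ω|)) ∑_ω ∑_g (v(g) - v(g s ω))² ≤ |F'|/R²`, `⟨P^n v, v⟩ = |Ω|^(-n) ∑_w ∑_g v(g) v(g val w)`, and
`∑_g v(g) v(g x)` is `0` if `wl x > D` and `≤ ⟨v,v⟩` always; use `bernoulli_form`, `⟨v,v⟩ ≥ |F|`. -/
theorem wtail {G Ω : Type} [Group G] [Fintype Ω] [Nonempty Ω] (s : Ω → G) (p : Ω → ℝ) (σ : Ω ≃ Ω) (hσ : ∀ ω, s (σ ω) = (s ω)⁻¹) (hp : IsWt p σ)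
    (F F' : Finset G) (hF0 : F.Nonempty) (R D : ℕ) (hR : 1 ≤ R)
    (hF : ∀ g ∈ F, ∀ l : List Ω, l.length < R → g * (l.map s).prod ∈ F')
    (hD : ∀ g ∈ F', ∀ h ∈ F', wl (Set.range s) (g⁻¹ * h) ≤ D) (n : ℕ) :
    wbig s p n D * ((R : ℝ) ^ 2 * F.card) ≤ n * F'.card := by
  classical
  set c : G → ℕ := cnt92 s F R with hc
  set v : G →₀ ℝ := Finsupp.onFinset F' (fun g => (c g : ℝ)) (fun g hg => cnt92_mem s F F' R hF hg) with hv
  have hvg : ∀ g, v g = c g := fun g => rfl
  have hvs : v.support ⊆ F' := Finsupp.support_onFinset_subset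
  have hv0 : ∀ g, v g ≠ 0 → g ∈ F' := fun g hg => hvs (Finsupp.mem_support_iff.2 hg)
  have hFF' : F ⊆ F' := by
    intro g hg
    have h1 := hF g hg [] (by rw [List.length_nil]; omega)
    simpa using h1
  -- the norm of `v`
  have hvv : (R : ℝ) ^ 2 * F.card ≤ b92 G v v := by
    rw [b92_eq v v F' hvs]
    calc (R : ℝ) ^ 2 * F.card = ∑ g ∈ F, v g * v g := by
          rw [Finset.sum_congr rfl fun g hg => by rw [hvg, hc, cnt92_F s F R hg], Finset.sum_const, nsmul_eq_mul]
          ring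
      _ ≤ ∑ g ∈ F', v g * v g :=
          Finset.sum_le_sum_of_subset_of_nonneg hFF' fun g _ _ => mul_self_nonneg _
  -- the gradient
  have hgrad : ∀ ω, b92 G v v - b92 G (T92 (s ω) v) v ≤ F'.card := by
    intro ω
    set x := s ω with hx
    have h1 : b92 G (v - T92 x v) (v - T92 x v) = 2 * (b92 G v v - b92 G (T92 x v) v) := by
      rw [b92_sub, b92_TT, b92_symm v (T92 x v)]
      ring
    have hsub : (v - T92 x v).support ⊆ F' ∪ F'.image fun g => g * x := by
      intro g hg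
      rw [Finsupp.mem_support_iff, Finsupp.sub_apply, T92_apply] at hg
      rw [Finset.mem_union, Finset.mem_image]
      by_cases h2 : v g = 0
      · right
        refine ⟨g * x⁻¹, hv0 _ ?_, inv_mul_cancel_right g x⟩
        intro h3
        rw [h2, h3, sub_zero] at hg
        exact hg rfl
      · left
        exact hv0 _ h2
    have h2 : b92 G (v - T92 x v) (v - T92 x v) ≤ (F' ∪ F'.image fun g => g * x).card := by
      rw [b92_eq _ _ _ hsub, Finset.card_eq_sum_ones, Nat.cast_sum]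
      refine Finset.sum_le_sum fun g _ => ?_
      rw [Finsupp.sub_apply, T92_apply, hvg, hvg, Nat.cast_one]
      have h3 : c (g * x⁻¹) ≤ c g + 1 := by
        have h4 := cnt92_step s F R (g * x⁻¹) ω
        rwa [← hx, inv_mul_cancel_right] at h4
      have h4 : c g ≤ c (g * x⁻¹) + 1 := by
        have h5 := cnt92_step s F R g (σ ω)
        rwa [hσ, ← hx] at h5
      have h5 : (c (g * x⁻¹) : ℝ) ≤ c g + 1 := by exact_mod_cast h3
      have h6 : (c g : ℝ) ≤ c (g * x⁻¹) + 1 := by exact_mod_cast h4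
      have h7 : |(c g : ℝ) - c (g * x⁻¹)| ≤ 1 := by
        rw [abs_le]
        constructor <;> linarith
      have h8 := mul_le_mul h7 h7 (abs_nonneg _) zero_le_one
      rwa [abs_mul_abs_self, mul_one] at h8
    have h3 : ((F' ∪ F'.image fun g => g * x).card : ℝ) ≤ 2 * F'.card := by
      have h4 : (F' ∪ F'.image fun g => g * x).card ≤ F'.card + F'.card :=
        (Finset.card_union_le _ _).trans (Nat.add_le_add_left Finset.card_image_le _)
      have h5 : ((F' ∪ F'.image fun g => g * x).card : ℝ) ≤ (F'.card + F'.card : ℕ) := by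
        exact_mod_cast h4
      push_cast at h5
      linarith
    rw [h1] at h2
    linarith
  have hgradP : b92 G v v - b92 G (P92 s p v) v ≤ F'.card := by
    rw [b92_P]
    have h1 : ∑ ω, p ω * (b92 G v v - b92 G (T92 (s ω) v) v) ≤ ∑ ω, p ω * (F'.card : ℝ) :=
      Finset.sum_le_sum fun ω _ => mul_le_mul_of_nonneg_left (hgrad ω) (hp.1 ω).le
    rw [← Finset.sum_mul, hp.2.1, one_mul] at h1
    simp only [mul_sub, Finset.sum_sub_distrib] at h1
    rw [← Finset.sum_mul, hp.2.1, one_mul] at h1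
    exact h1
  have hB := bernoulli_form (b92 G) b92_symm (P92 s p) (b92_Psymm s p σ hσ hp) (b92_Pc s p σ hp) v n
  -- the powers of `P`
  have hpow : b92 G ((P92 s p ^ n) v) v = ∑ w : Fin n → Ω, (∏ i, p (w i)) * b92 G (T92 (val s w) v) v := by
    rw [P92_pow, map_sum, LinearMap.sum_apply]
    refine Finset.sum_congr rfl fun w _ => ?_
    rw [map_smul, LinearMap.smul_apply, smul_eq_mul]
  have hterm : ∀ w : Fin n → Ω, b92 G (T92 (val s w) v) v ≤
      if (D : ℝ) < (wl (Set.range s) (val s w) : ℝ) then 0 else b92 G v v := by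
    intro w
    split_ifs with h1
    · have h2 : b92 G (T92 (val s w) v) v = 0 := by
        rw [b92_symm, b92_eq v _ F' hvs]
        refine Finset.sum_eq_zero fun g hg => ?_
        rw [T92_apply]
        by_cases h3 : v (g * (val s w)⁻¹) = 0
        · rw [h3, mul_zero]
        · exfalso
          have h4 := hD _ (hv0 _ h3) g hg
          have h5 : (g * (val s w)⁻¹)⁻¹ * g = val s w := by group
          rw [h5] at h4
          have h6 : (wl (Set.range s) (val s w) : ℝ) ≤ D := by exact_mod_cast h4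
          exact absurd h1 (not_lt.2 h6)
      exact h2.le
    · exact (le_abs_self _).trans (b92_le _ _)
  have hw0 : ∀ w : Fin n → Ω, 0 ≤ ∏ i, p (w i) := fun w => Finset.prod_nonneg fun i _ => (hp.1 _).le
  have hsum : ∑ w : Fin n → Ω, (∏ i, p (w i)) * b92 G (T92 (val s w) v) v ≤
      (1 - wbig s p n D) * b92 G v v := by
    have h1 : ∑ w : Fin n → Ω, (∏ i, p (w i)) * b92 G (T92 (val s w) v) v ≤
        ∑ w : Fin n → Ω, ((∏ i, p (w i)) - if (D : ℝ) < (wl (Set.range s) (val s w) : ℝ) then ∏ i, p (w i) else 0) * b92 G v v := by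
      refine Finset.sum_le_sum fun w _ => ?_
      refine (mul_le_mul_of_nonneg_left (hterm w) (hw0 w)).trans (le_of_eq ?_)
      split_ifs
      · simp
      · simp
    refine h1.trans (le_of_eq ?_)
    rw [← Finset.sum_mul, Finset.sum_sub_distrib, sum_prod_wt, hp.2.1, one_pow]
    rfl
  have hbig : (0 : ℝ) ≤ wbig s p n D := by
    unfold wbig
    refine Finset.sum_nonneg fun w _ => ?_
    split_ifs
    · exact hw0 w
    · exact le_refl _
  calc wbig s p n D * ((R : ℝ) ^ 2 * F.card) ≤ wbig s p n D * b92 G v v :=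
        mul_le_mul_of_nonneg_left hvv hbig
    _ ≤ b92 G v v - b92 G ((P92 s p ^ n) v) v := by
        rw [hpow]
        linarith
    _ ≤ n * F'.card := by
        refine hB.trans ?_
        exact mul_le_mul_of_nonneg_left hgradP (Nat.cast_nonneg n)

end Pool.Agent.Helper74.MW
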