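import Pool.Agent.Helper74.MW.Defs

set_option autoImplicit false

namespace Pool.Agent.Helper74.MW

open Pool.Agent.Helper74.MU

private theorem wl_le {G : Type} [Group G] {Ω : Type} (s : Ω → G) {n : ℕ} (w : Fin n → Ω) :
    wl (Set.range s) (val s w) ≤ n := by
  refine Nat.sInf_le ⟨List.ofFn fun i => s (w i), by simp, ?_, rfl⟩
  intro x hx
  obtain ⟨i, rfl⟩ := (List.mem_ofFn' _ _).1 hx
  exact ⟨w i, rfl⟩

private theorem layer (D : ℕ → ℝ) (hD : ∀ i, 0 ≤ D i) (x : ℝ) :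
    ∀ m : ℕ, x ≤ D m → x ≤ D 0 + ∑ i ∈ Finset.range m, (if D i < x then D (i + 1) else 0) := by
  intro m
  have hnn : ∀ m, 0 ≤ ∑ i ∈ Finset.range m, (if D i < x then D (i + 1) else 0) := by
    intro m
    refine Finset.sum_nonneg fun i _ => ?_
    split_ifs
    · exact hD _
    · exact le_refl _
  induction m with
  | zero => intro h; simpa using h
  | succ m ih =>
    intro h
    rw [Finset.sum_range_succ]
    by_cases hx : D m < x
    · rw [if_pos hx]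
      have := hnn m
      have := hD 0
      linarith
    · rw [if_neg hx]
      have := ih (not_lt.1 hx)
      linarith

private theorem sum_bound {G Ω : Type} [Group G] [Fintype Ω] (s : Ω → G) (p : Ω → ℝ) (hp : ∀ ω, 0 ≤ p ω) (hp1 : ∑ ω, p ω = 1) (n m : ℕ) (D : ℕ → ℝ) (hD : ∀ i, 0 ≤ D i)
    (hm : (n : ℝ) ≤ D m) :
    wel s p n ≤ D 0 + ∑ i ∈ Finset.range m, D (i + 1) * wbig s p n (D i) := by
  classical
  unfold wel
  calc (∑ w : Fin n → Ω, (∏ i, p (w i)) * (wl (Set.range s) (val s w) : ℝ))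
      ≤ ∑ w : Fin n → Ω, (∏ i, p (w i)) * (D 0 + ∑ i ∈ Finset.range m,
          (if D i < (wl (Set.range s) (val s w) : ℝ) then D (i + 1) else 0)) := by
        refine Finset.sum_le_sum fun w _ => mul_le_mul_of_nonneg_left (layer D hD _ m (le_trans ?_ hm))
          (Finset.prod_nonneg fun i _ => hp _)
        exact_mod_cast wl_le s w
    _ = D 0 + ∑ i ∈ Finset.range m, D (i + 1) * wbig s p n (D i) := by
        simp only [mul_add, Finset.sum_add_distrib, ← Finset.sum_mul, sum_prod_wt, hp1, one_pow, one_mul, Finset.mul_sum]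
        rw [Finset.sum_comm]
        congr 1
        refine Finset.sum_congr rfl fun i _ => ?_
        unfold wbig
        rw [Finset.mul_sum]
        refine Finset.sum_congr rfl fun w _ => ?_
        split_ifs <;> ring

private theorem geom (q : ℝ) (h0 : 0 ≤ q) (h1 : q ≤ 3 / 4) (m : ℕ) : ∑ i ∈ Finset.range m, q ^ i ≤ 4 := by
  have h2 : (1 - q) * ∑ i ∈ Finset.range m, q ^ i = 1 - q ^ m := by
    have := mul_neg_geom_sum q m
    linarith
  have h3 : 0 ≤ q ^ m := pow_nonneg h0 m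
  have h4 : 0 ≤ ∑ i ∈ Finset.range m, q ^ i := Finset.sum_nonneg fun i _ => pow_nonneg h0 i
  nlinarith

private theorem two_rpow_le (a : ℝ) (ha : a ≤ 1 / 2) : (2 : ℝ) ^ (1 + a) ≤ 3 := by
  have h1 : (2 : ℝ) ^ (1 + a) ≤ (2 : ℝ) ^ (3 / 2 : ℝ) := Real.rpow_le_rpow_of_exponent_le (by norm_num) (by linarith)
  have h2 : ((2 : ℝ) ^ (3 / 2 : ℝ)) ^ 2 = 8 := by
    rw [← Real.rpow_natCast, ← Real.rpow_mul (by norm_num)]
    norm_num
  have h3 : (0 : ℝ) ≤ (2 : ℝ) ^ (3 / 2 : ℝ) := by positivity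
  nlinarith

/-- From the tail to the mean, weighted version. If for every `ε > 0` there is `K` with `P(|X_n| > K R^(1+ε)) ≤ K n / R²` for all `R ≥ 1`, `n`, then
`E|X_n| ≤ C n^(1/2+ε)`. Proof: `R_i = ⌈2^i √n⌉`, `D_i = K R_i^(1+ε)`; `E|X| ≤ D_0 + ∑_i D_{i+1} P(|X| > D_i)` (geometric series, `ε ≤ 1/2`; the sum is finite since
`|X_n| ≤ n`). -/
theorem wexpect {G Ω : Type} [Group G] [Fintype Ω] [Nonempty Ω] (s : Ω → G) (p : Ω → ℝ) (hp : ∀ ω, 0 ≤ p ω) (hp1 : ∑ ω, p ω = 1)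
    (h : ∀ ε : ℝ, 0 < ε → ∃ K : ℝ, 0 < K ∧ ∀ R : ℕ, 1 ≤ R → ∀ n : ℕ,
      wbig s p n (K * (R : ℝ) ^ (1 + ε)) * (R : ℝ) ^ 2 ≤ K * n) (ε : ℝ) (hε : 0 < ε) :
    ∃ C : ℝ, 0 < C ∧ ∀ n : ℕ, 1 ≤ n → wel s p n ≤ C * (n : ℝ) ^ (1 / 2 + ε) := by
  set a : ℝ := min ε (1 / 2) with ha
  have ha0 : 0 < a := lt_min hε (by norm_num)
  have ha1 : a ≤ 1 / 2 := min_le_right _ _
  have ha2 : a ≤ ε := min_le_left _ _
  obtain ⟨K, hK, hKb⟩ := h a ha0
  refine ⟨3 * K + 36 * K ^ 2, by positivity, ?_⟩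
  intro n hn
  have hn1 : (1 : ℝ) ≤ n := by exact_mod_cast hn
  set R₀ : ℕ := ⌈Real.sqrt n⌉₊ with hR₀
  have hs1 : 1 ≤ Real.sqrt n := Real.one_le_sqrt.2 hn1
  have hR0 : Real.sqrt n ≤ R₀ := Nat.le_ceil _
  have hR1 : (1 : ℝ) ≤ R₀ := hs1.trans hR0
  have hR1' : 1 ≤ R₀ := by exact_mod_cast hR1
  have hR2 : (R₀ : ℝ) ≤ 2 * Real.sqrt n := by
    have := (Nat.ceil_lt_add_one (Real.sqrt_nonneg n)).le
    linarith
  have hRn : (n : ℝ) ≤ (R₀ : ℝ) ^ 2 := by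
    calc (n : ℝ) = Real.sqrt n ^ 2 := (Real.sq_sqrt (by positivity)).symm
      _ ≤ (R₀ : ℝ) ^ 2 := by gcongr
  set D : ℕ → ℝ := fun i => K * (((2 ^ i * R₀ : ℕ) : ℝ)) ^ (1 + a) with hD
  have hD0 : ∀ i, 0 ≤ D i := fun i => by positivity
  have hDi : ∀ i, D i = K * (R₀ : ℝ) ^ (1 + a) * ((2 : ℝ) ^ (1 + a)) ^ i := by
    intro i
    simp only [hD]
    push_cast
    rw [Real.mul_rpow (by positivity) (by positivity), ← Real.rpow_natCast, ← Real.rpow_natCast,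
      ← Real.rpow_mul (by norm_num), ← Real.rpow_mul (by norm_num), mul_comm (i : ℝ) (1 + a)]
    ring
  -- the last level
  obtain ⟨m, hm⟩ := pow_unbounded_of_one_lt ((n : ℝ) / K) (by norm_num : (1 : ℝ) < 2)
  have hDm : (n : ℝ) ≤ D m := by
    have h1 : (2 : ℝ) ^ m ≤ (((2 ^ m * R₀ : ℕ) : ℝ)) ^ (1 + a) := by
      have h2 : (2 : ℝ) ^ m ≤ ((2 ^ m * R₀ : ℕ) : ℝ) := by
        push_cast
        nlinarith [pow_pos (by norm_num : (0 : ℝ) < 2) m]
      have h3 : (1 : ℝ) ≤ ((2 ^ m * R₀ : ℕ) : ℝ) := (one_le_pow₀ (by norm_num)).trans h2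
      calc (2 : ℝ) ^ m ≤ ((2 ^ m * R₀ : ℕ) : ℝ) := h2
        _ = ((2 ^ m * R₀ : ℕ) : ℝ) ^ (1 : ℝ) := (Real.rpow_one _).symm
        _ ≤ _ := Real.rpow_le_rpow_of_exponent_le h3 (by linarith)
    have h4 : (n : ℝ) < K * 2 ^ m := by
      rw [div_lt_iff₀ hK] at hm
      linarith
    calc (n : ℝ) ≤ K * 2 ^ m := h4.le
      _ ≤ K * (((2 ^ m * R₀ : ℕ) : ℝ)) ^ (1 + a) := by gcongr
  have hmain := sum_bound s p hp hp1 n m D hD0 hDm
  -- the tail terms
  have hterm : ∀ i, D (i + 1) * wbig s p n (D i) ≤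
      (9 * K ^ 2 * (Real.sqrt n ^ (1 + a))) * ((2 : ℝ) ^ (1 + a) / 4) ^ i := by
    intro i
    have h1 := hKb (2 ^ i * R₀) (Nat.mul_pos (by positivity) hR1') n
    have h1' : wbig s p n (D i) * (((2 ^ i * R₀ : ℕ) : ℝ)) ^ 2 ≤ K * n := h1
    have h2 : (((2 ^ i * R₀ : ℕ) : ℝ)) ^ 2 = 4 ^ i * (R₀ : ℝ) ^ 2 := by
      push_cast
      rw [mul_pow, ← pow_mul, mul_comm i 2, pow_mul]
      norm_num
    have hb : 0 ≤ wbig s p n (D i) := by
      unfold wbig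
      refine Finset.sum_nonneg fun w _ => ?_
      split_ifs
      · exact Finset.prod_nonneg fun i _ => hp _
      · exact le_refl _
    have h3 : wbig s p n (D i) * 4 ^ i ≤ K := by
      have h4 : wbig s p n (D i) * 4 ^ i * n ≤ K * n := by
        calc wbig s p n (D i) * 4 ^ i * n ≤ wbig s p n (D i) * 4 ^ i * (R₀ : ℝ) ^ 2 := by gcongr
          _ = wbig s p n (D i) * (((2 ^ i * R₀ : ℕ) : ℝ)) ^ 2 := by rw [h2]; ring
          _ ≤ K * n := h1'
          _ = K * n := by ring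
      exact le_of_mul_le_mul_right h4 (by linarith)
    have h5 : wbig s p n (D i) ≤ K / 4 ^ i := by
      rw [le_div_iff₀ (by positivity)]
      exact h3
    have h6 : (R₀ : ℝ) ^ (1 + a) ≤ 3 * Real.sqrt n ^ (1 + a) := by
      calc (R₀ : ℝ) ^ (1 + a) ≤ (2 * Real.sqrt n) ^ (1 + a) := by
            exact Real.rpow_le_rpow (by positivity) hR2 (by linarith)
        _ = (2 : ℝ) ^ (1 + a) * Real.sqrt n ^ (1 + a) := Real.mul_rpow (by norm_num) (Real.sqrt_nonneg _)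
        _ ≤ 3 * Real.sqrt n ^ (1 + a) := by
            have := two_rpow_le a ha1
            gcongr
    calc D (i + 1) * wbig s p n (D i)
        ≤ D (i + 1) * (K / 4 ^ i) := by
          have := hD0 (i + 1)
          gcongr
      _ = K * (R₀ : ℝ) ^ (1 + a) * ((2 : ℝ) ^ (1 + a)) * (K) *
            ((2 : ℝ) ^ (1 + a) / 4) ^ i := by
          rw [hDi, pow_succ, div_pow]
          ring
      _ ≤ K * (3 * Real.sqrt n ^ (1 + a)) * 3 * (K) *
            ((2 : ℝ) ^ (1 + a) / 4) ^ i := by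
          have := two_rpow_le a ha1
          gcongr
      _ = _ := by ring
  have hq : (2 : ℝ) ^ (1 + a) / 4 ≤ 3 / 4 := by
    have := two_rpow_le a ha1
    linarith
  have hsum : ∑ i ∈ Finset.range m, D (i + 1) * wbig s p n (D i) ≤
      (9 * K ^ 2 * (Real.sqrt n ^ (1 + a))) * 4 := by
    calc ∑ i ∈ Finset.range m, D (i + 1) * wbig s p n (D i)
        ≤ ∑ i ∈ Finset.range m, (9 * K ^ 2 * (Real.sqrt n ^ (1 + a))) *
            ((2 : ℝ) ^ (1 + a) / 4) ^ i := Finset.sum_le_sum fun i _ => hterm i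
      _ = (9 * K ^ 2 * (Real.sqrt n ^ (1 + a))) *
            ∑ i ∈ Finset.range m, ((2 : ℝ) ^ (1 + a) / 4) ^ i := by rw [Finset.mul_sum]
      _ ≤ _ := by
          have := geom _ (by positivity) hq m
          gcongr
  have hD00 : D 0 ≤ 3 * K * Real.sqrt n ^ (1 + a) := by
    rw [hDi, pow_zero, mul_one]
    have h6 : (R₀ : ℝ) ^ (1 + a) ≤ 3 * Real.sqrt n ^ (1 + a) := by
      calc (R₀ : ℝ) ^ (1 + a) ≤ (2 * Real.sqrt n) ^ (1 + a) := by
            exact Real.rpow_le_rpow (by positivity) hR2 (by linarith)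
        _ = (2 : ℝ) ^ (1 + a) * Real.sqrt n ^ (1 + a) := Real.mul_rpow (by norm_num) (Real.sqrt_nonneg _)
        _ ≤ 3 * Real.sqrt n ^ (1 + a) := by
            have := two_rpow_le a ha1
            gcongr
    calc K * (R₀ : ℝ) ^ (1 + a) ≤ K * (3 * Real.sqrt n ^ (1 + a)) := by gcongr
      _ = _ := by ring
  have hpow : Real.sqrt n ^ (1 + a) ≤ (n : ℝ) ^ (1 / 2 + ε) := by
    rw [Real.sqrt_eq_rpow, ← Real.rpow_mul (by positivity)]
    exact Real.rpow_le_rpow_of_exponent_le hn1 (by linarith)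
  calc wel s p n
      ≤ (3 * K * Real.sqrt n ^ (1 + a)) + (9 * K ^ 2 * (Real.sqrt n ^ (1 + a))) * 4 := by
        refine hmain.trans ?_
        gcongr
    _ = (3 * K + 36 * K ^ 2) * Real.sqrt n ^ (1 + a) := by ring
    _ ≤ (3 * K + 36 * K ^ 2) * (n : ℝ) ^ (1 / 2 + ε) := by gcongr

end Pool.Agent.Helper74.MW
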