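import Pool.Agent.Helper74.MU.W
import Pool.Agent.Helper74.MU.G1
import Pool.Agent.Helper74.MW.Defs

set_option autoImplicit false

namespace Pool.Agent.Helper74.MW

open Pool.Agent.Helper74.MU

private theorem range_double {G Ω : Type} [Group G] (s : Ω → G) (σ : Ω ≃ Ω)
    (hσ : ∀ ω, s (σ ω) = (s ω)⁻¹) : Set.range (lt s) = Set.range s := by
  apply Set.Subset.antisymm
  · rintro _ ⟨⟨ω, b⟩, rfl⟩
    cases b with
    | true => exact ⟨ω, by simp [lt]⟩
    | false => exact ⟨σ ω, by simp [lt, hσ]⟩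
  · rintro _ ⟨ω, rfl⟩
    exact ⟨(ω, true), by simp [lt]⟩

/-- The doubled walk has the same law. -/
theorem wel_double {G Ω : Type} [Group G] [Fintype Ω] [Nonempty Ω] (s : Ω → G) (p : Ω → ℝ) (σ : Ω ≃ Ω) (hσ : ∀ ω, s (σ ω) = (s ω)⁻¹)
    (hp : IsWt p σ) (n : ℕ) : wel s p n = wel (lt s) (fun e => p e.1 / 2) n := by
  classical
  unfold wel
  rw [range_double s σ hσ]
  -- the reindexing
  let τ : Ω × Bool ≃ Ω × Bool :=
    { toFun := fun e => (if e.2 then e.1 else σ e.1, e.2)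
      invFun := fun e => (if e.2 then e.1 else σ.symm e.1, e.2)
      left_inv := by
        rintro ⟨ω, b⟩
        cases b <;> simp
      right_inv := by
        rintro ⟨ω, b⟩
        cases b <;> simp }
  have hτ : ∀ e : Ω × Bool, lt s e = s (τ e).1 := by
    rintro ⟨ω, b⟩
    cases b <;> simp [lt, τ, hσ]
  have hτp : ∀ e : Ω × Bool, p e.1 = p (τ e).1 := by
    rintro ⟨ω, b⟩
    cases b <;> simp [τ, hp.2.2]
  have h1 : ∀ w : Fin n → Ω × Bool, val (lt s) w = val s fun i => (τ (w i)).1 := by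
    intro w
    unfold val
    congr 1
    congr 1
    funext i
    exact hτ (w i)
  obtain ⟨F, hF⟩ : ∃ F : (Fin n → Ω) → ℝ, ∀ v, F v = (∏ i, p (v i)) * (wl (Set.range s) (val s v) : ℝ) :=
    ⟨_, fun _ => rfl⟩
  have h2 : (∑ w : Fin n → Ω × Bool, (∏ i, p (w i).1 / 2) * (wl (Set.range s) (val (lt s) w) : ℝ)) =
      ∑ w : Fin n → Ω × Bool, (1 / 2) ^ n * F fun i => (w i).1 := by
    rw [← Equiv.sum_comp (Equiv.arrowCongr (Equiv.refl (Fin n)) τ)
      (fun w : Fin n → Ω × Bool => (1 / 2) ^ n * F fun i => (w i).1)]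
    refine Finset.sum_congr rfl fun w _ => ?_
    rw [hF, h1, Finset.prod_div_distrib]
    simp only [Finset.prod_const, Finset.card_univ, Fintype.card_fin]
    have h5 : ∏ i, p (w i).1 = ∏ i, p ((Equiv.arrowCongr (Equiv.refl (Fin n)) τ) w i).1 :=
      Finset.prod_congr rfl fun i _ => hτp (w i)
    rw [h5]
    have h6 : (val s fun i => (τ (w i)).1) = val s fun i => ((Equiv.arrowCongr (Equiv.refl (Fin n)) τ) w i).1 := rfl
    rw [h6, one_div, inv_pow]
    ring
  have h3 : (∑ w : Fin n → Ω × Bool, (1 / 2 : ℝ) ^ n * F fun i => (w i).1) = ∑ v : Fin n → Ω, F v := by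
    rw [← Equiv.sum_comp (Equiv.arrowProdEquivProdArrow (Fin n) (fun _ => Ω) (fun _ => Bool)).symm,
      Fintype.sum_prod_type]
    refine Finset.sum_congr rfl fun v _ => ?_
    have h4 : ∀ y : Fin n → Bool, ((1 / 2 : ℝ) ^ n * F fun i => (((Equiv.arrowProdEquivProdArrow (Fin n)
        (fun _ => Ω) (fun _ => Bool)).symm (v, y)) i).1) = (1 / 2 : ℝ) ^ n * F v := fun y => rfl
    rw [Finset.sum_congr rfl fun y _ => h4 y, Finset.sum_const, Finset.card_univ, nsmul_eq_mul,
      Fintype.card_fun, Fintype.card_bool, Fintype.card_fin]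
    push_cast
    rw [← mul_assoc, ← mul_pow]
    norm_num
  rw [h2, h3]
  exact Finset.sum_congr rfl fun v _ => (hF v).symm

/-- Comparison along a homomorphism. -/
theorem wel_map {G H Ω : Type} [Group G] [Group H] [Fintype Ω] [Nonempty Ω] (t : Ω → G) (q : Ω × Bool → ℝ) (hq : ∀ e, 0 ≤ q e) (φ : G →* H) (n : ℕ)
    (hS : SymGen (Set.range (lt t))) : wel (lt fun ω => φ (t ω)) q n ≤ wel (lt t) q n := by
  classical
  have h1 : ∀ e : Ω × Bool, lt (fun ω => φ (t ω)) e = φ (lt t e) := by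
    rintro ⟨ω, b⟩
    cases b <;> simp [lt]
  have h2 : ∀ w : Fin n → Ω × Bool, val (lt fun ω => φ (t ω)) w = φ (val (lt t) w) := by
    intro w
    unfold val
    rw [map_list_prod, List.map_ofFn]
    congr 1
    congr 1
    funext i
    exact h1 (w i)
  unfold wel
  refine Finset.sum_le_sum fun w _ => mul_le_mul_of_nonneg_left ?_ (Finset.prod_nonneg fun i _ => hq _)
  rw [h2]
  have h3 := wl_map (T := Set.range (lt fun ω => φ (t ω))) hS φ (by
    rintro _ ⟨e, rfl⟩
    exact ⟨e, h1 e⟩) (val (lt t) w)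
  exact_mod_cast h3

end Pool.Agent.Helper74.MW
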