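import Pool.Agent.Helper74.MU.G4
import Pool.Agent.Helper74.MW.U0
import Pool.Agent.Helper74.MW.P2
import Pool.Agent.Helper74.MW.P3

set_option autoImplicit false

namespace Pool.Agent.Helper74.MW

open Pool.Agent.Helper74.MU

lemma wbig_mono {G Ω : Type} [Group G] [Fintype Ω] (s : Ω → G) (p : Ω → ℝ) (hp : ∀ ω, 0 ≤ p ω) (n : ℕ) {D D' : ℝ} (h : D ≤ D') :
    wbig s p n D' ≤ wbig s p n D := by
  classical
  unfold wbig
  refine Finset.sum_le_sum fun w _ => ?_
  have h0 : 0 ≤ ∏ i, p (w i) := Finset.prod_nonneg fun i _ => hp _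
  split_ifs with h1 h2 h2
  · exact le_rfl
  · exact absurd (lt_of_le_of_lt h h1) h2
  · exact h0
  · exact le_rfl

lemma isWt_double {Ω : Type} [Fintype Ω] (p : Ω → ℝ) (hp : ∀ ω, 0 < p ω) (hp1 : ∑ ω, p ω = 1) :
    IsWt (fun e : Ω × Bool => p e.1 / 2) ((Equiv.refl Ω).prodCongr Equiv.boolNot) := by
  refine ⟨fun e => by have := hp e.1; positivity, ?_, fun e => rfl⟩
  rw [Fintype.sum_prod_type]
  simp only [Finset.sum_const, Finset.card_univ, Fintype.card_bool, nsmul_eq_mul]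
  rw [← hp1]
  refine Finset.sum_congr rfl fun ω _ => ?_
  push_cast
  ring

/-- the upper bound for groups with free abelian quotient, weighted version -/
theorem wupper_free {G Ω : Type} [Group G] [Fintype Ω] [DecidableEq Ω] [Nonempty Ω] (t : Ω → G) (p : Ω → ℝ) (hp0 : ∀ ω, 0 < p ω)
    (hp1 : ∑ ω, p ω = 1) (π : G →* Multiplicative (Ω → ℤ))
    (hπ : ∀ i j, (π (t i)).toAdd j = if i = j then 1 else 0) (hgen : Subgroup.closure (Set.range t) = ⊤)
    (hab : ∀ a ∈ π.ker, ∀ b ∈ π.ker, a * b = b * a) (hA : RelA π.ker) (hB : RelB π.ker) (ε : ℝ) (hε : 0 < ε) :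
    ∃ C : ℝ, 0 < C ∧ ∀ n : ℕ, 1 ≤ n → wel (lt t) (fun e => p e.1 / 2) n ≤ C * (n : ℝ) ^ (1 / 2 + ε) := by
  have hw := isWt_double p hp0 hp1
  have hnn : ∀ e : Ω × Bool, 0 ≤ (fun e : Ω × Bool => p e.1 / 2) e := fun e => (hw.1 e).le
  refine wexpect (lt t) _ hnn hw.2.1 ?_ ε hε
  intro δ hδ
  obtain ⟨K, hK, h⟩ := folner t π hπ hgen hab hA hB δ hδ
  refine ⟨K, by exact_mod_cast hK, fun R hR n => ?_⟩
  obtain ⟨F, F', hne, h1, h2, h3⟩ := h R hR
  have hpos : (0 : ℝ) ≤ K * (R : ℝ) ^ (1 + δ) := by positivity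
  have ht := wtail (lt t) (fun e => p e.1 / 2) ((Equiv.refl Ω).prodCongr Equiv.boolNot) (by
    rintro ⟨ω, b⟩
    cases b <;> simp [lt]) hw F F' hne R ⌊K * (R : ℝ) ^ (1 + δ)⌋₊ hR h1 (fun g hg k hk => Nat.le_floor (h3 g hg k hk)) n
  have hb : wbig (lt t) (fun e => p e.1 / 2) n (K * (R : ℝ) ^ (1 + δ)) ≤ wbig (lt t) (fun e => p e.1 / 2) n (⌊K * (R : ℝ) ^ (1 + δ)⌋₊ : ℝ) :=
    wbig_mono (lt t) _ hnn n (Nat.floor_le hpos)
  have hF : (0 : ℝ) < F.card := by exact_mod_cast hne.card_pos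
  have hF' : (F'.card : ℝ) ≤ K * F.card := by exact_mod_cast h2
  set X : ℝ := wbig (lt t) (fun e => p e.1 / 2) n (K * (R : ℝ) ^ (1 + δ)) with hX
  have h5 : X * (R : ℝ) ^ 2 * F.card ≤ K * n * F.card := by
    calc X * (R : ℝ) ^ 2 * F.card = X * ((R : ℝ) ^ 2 * F.card) := by ring
      _ ≤ (wbig (lt t) (fun e => p e.1 / 2) n (⌊K * (R : ℝ) ^ (1 + δ)⌋₊ : ℝ)) * ((R : ℝ) ^ 2 * F.card) := mul_le_mul_of_nonneg_right hb (by positivity)
      _ ≤ n * F'.card := ht
      _ ≤ n * (K * F.card) := mul_le_mul_of_nonneg_left hF' (by positivity)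
      _ = K * n * F.card := by ring
  exact le_of_mul_le_mul_right h5 hF

/-- The upper bound, weighted version: metabelian groups satisfying `RelA`, `RelB`. -/
theorem wupper {G Ω : Type} [Group G] [Fintype Ω] [Nonempty Ω] (s : Ω → G) (p : Ω → ℝ) (σ : Ω ≃ Ω) (hσ : ∀ ω, s (σ ω) = (s ω)⁻¹) (hp : IsWt p σ)
    (_hgen : Subgroup.closure (Set.range s) = ⊤) (hab : ∀ a ∈ commutator G, ∀ b ∈ commutator G, a * b = b * a)
    (hA : RelA (commutator G)) (hB : RelB (commutator G)) (ε : ℝ) (hε : 0 < ε) :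
    ∃ C : ℝ, 0 < C ∧ ∀ n : ℕ, 1 ≤ n → wel s p n ≤ C * (n : ℝ) ^ (1 / 2 + ε) := by
  classical
  let e : Ω → G × Multiplicative (Ω → ℤ) := fun ω => (s ω, Multiplicative.ofAdd (Pi.single ω 1))
  let H : Subgroup (G × Multiplicative (Ω → ℤ)) := Subgroup.closure (Set.range e)
  let t : Ω → H := fun ω => ⟨e ω, Subgroup.subset_closure ⟨ω, rfl⟩⟩
  let φ : H →* G := (MonoidHom.fst _ _).comp H.subtype
  let π : H →* Multiplicative (Ω → ℤ) := (MonoidHom.snd _ _).comp H.subtype
  have hπ : ∀ i j, (π (t i)).toAdd j = if i = j then 1 else 0 := by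
    intro i j
    change (Pi.single i (1 : ℤ) : Ω → ℤ) j = _
    rw [Pi.single_apply]
    simp only [eq_comm]
  have hgen : Subgroup.closure (Set.range t) = ⊤ := by
    apply Subgroup.map_injective H.subtype_injective
    rw [MonoidHom.map_closure, ← MonoidHom.range_eq_map, Subgroup.range_subtype, ← Set.range_comp]
    rfl
  have hext : ∀ a b : H, φ a = φ b → π a = π b → a = b := fun a b h1 h2 => Subtype.ext (Prod.ext h1 h2)
  -- kernel lies over the commutator subgroup
  have hcomm : ∀ a ∈ π.ker, φ a ∈ commutator G := by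
    intro a ha
    let Ψ : Multiplicative (Ω → ℤ) →* Abelianization G :=
      { toFun := fun v => ∏ ω, (Abelianization.of (s ω)) ^ (v.toAdd ω)
        map_one' := by simp
        map_mul' := by
          intro v w
          simp only [toAdd_mul, Pi.add_apply, zpow_add, Finset.prod_mul_distrib] }
    have h1 : ∀ x ∈ H, Abelianization.of x.1 = Ψ x.2 := by
      intro x hx
      have hle : H ≤ MonoidHom.eqLocus (Abelianization.of.comp (MonoidHom.fst G (Multiplicative (Ω → ℤ)))) (Ψ.comp (MonoidHom.snd _ _)) := by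
        refine (Subgroup.closure_le _).2 ?_
        rintro _ ⟨ω, rfl⟩
        change Abelianization.of (s ω) = ∏ ω', (Abelianization.of (s ω')) ^ ((Pi.single ω (1 : ℤ) : Ω → ℤ) ω')
        rw [Finset.prod_eq_single ω]
        · simp
        · intro b _ hb
          simp [hb]
        · simp
      exact hle hx
    have h2 := h1 a.1 a.2
    have h3 : Ψ (a.1.2) = 1 := by
      have : (a.1.2 : Multiplicative (Ω → ℤ)) = 1 := ha
      rw [this, map_one]
    rw [h3] at h2
    have h4 : φ a ∈ (Abelianization.of : G →* Abelianization G).ker := h2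
    rwa [Abelianization.ker_of] at h4
  have hab' : ∀ a ∈ π.ker, ∀ b ∈ π.ker, a * b = b * a := by
    intro a ha b hb
    refine hext _ _ ?_ ?_
    · rw [map_mul, map_mul]
      exact hab _ (hcomm a ha) _ (hcomm b hb)
    · rw [map_mul, map_mul]
      exact mul_comm _ _
  have hA' : RelA π.ker := by
    intro g
    obtain ⟨f, hf, h⟩ := hA (φ g)
    refine ⟨f, hf, fun a ha => hext _ _ ?_ ?_⟩
    · rw [map_list_prod, map_one, ← h (φ a) (hcomm a ha), List.map_map]
      rfl
    · rw [map_list_prod, map_one]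
      refine List.prod_eq_one ?_
      intro y hy
      simp only [List.mem_map] at hy
      obtain ⟨z, ⟨j, _, rfl⟩, rfl⟩ := hy
      have : π a = 1 := ha
      simp only [map_zpow, map_mul, map_pow, map_inv, this, mul_one, mul_inv_cancel, one_zpow]
  have hB' : RelB π.ker := by
    intro pp hpp g h
    obtain ⟨F, hF, hr⟩ := hB pp hpp (φ g) (φ h)
    refine ⟨F, hF, fun a ha => hext _ _ ?_ ?_⟩
    · rw [map_list_prod, map_one, ← hr (φ a) (hcomm a ha), List.map_map]
      rfl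
    · rw [map_list_prod, map_one]
      refine List.prod_eq_one ?_
      intro y hy
      simp only [List.mem_map] at hy
      obtain ⟨z, ⟨j, _, rfl⟩, rfl⟩ := hy
      have : π a = 1 := ha
      simp only [map_zpow, map_mul, map_pow, map_inv, this, mul_one, mul_inv_cancel, one_zpow]
  obtain ⟨C, hC, h⟩ := wupper_free t p hp.1 hp.2.1 π hπ hgen hab' hA' hB' ε hε
  refine ⟨C, hC, fun n hn => ?_⟩
  rw [wel_double s p σ hσ hp n]
  exact (wel_map t (fun e => p e.1 / 2) (fun e => by have := hp.1 e.1; positivity) φ n (symGen_lt t hgen)).trans (h n hn)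

end Pool.Agent.Helper74.MW
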